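import Mathlib
import Pool.Agent.Q240.BrujnD

/-! MP_a9eae2_co: balanced generalized de Bruijn sequences over every alphabet. -/

namespace Pool.Agent.Results.MP_a9eae2_co.BalancedDeBruijn

/-- Cyclic sequences of length `n` are maps `ZMod n → A`, and the positions are the elements of
`ZMod n`.  For every finite alphabet `A` with at least two letters and all positive `n`, `l`, `k`:
there is a cyclic sequence of length `n` in which every word `w` of length `l` occurs at no more
than `k` positions and every letter occurs exactly `n / |A|` times if and only if `|A|` divides `n`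
and `n ≤ k * |A| ^ l`. -/
theorem result (A : Type) [Fintype A] [DecidableEq A] (hA : 2 ≤ Fintype.card A)
    (n l k : ℕ) [NeZero n] (hl : 0 < l) (hk : 0 < k) :
    (∃ a : ZMod n → A,
      (∀ w : Fin l → A, (Finset.univ.filter
        (fun i : ZMod n => ∀ j : Fin l, a (i + ((j : ℕ) : ZMod n)) = w j)).card ≤ k) ∧
      ∀ x : A, Fintype.card A * (Finset.univ.filter (fun i : ZMod n => a i = x)).card = n) ↔
    (Fintype.card A ∣ n ∧ n ≤ k * Fintype.card A ^ l) := by
  constructor
  · rintro ⟨a, h1, h2⟩
    refine ⟨?_, ?_⟩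
    · obtain ⟨x⟩ := Fintype.card_pos_iff.1 (show 0 < Fintype.card A by omega)
      exact ⟨_, (h2 x).symm⟩
    · refine Pool.Agent.Q240.Brujn.le_of_exists a (fun w => ?_)
      refine le_trans (le_of_eq ?_) (h1 w)
      unfold Pool.Agent.Q240.Brujn.occ
      congr!
  · rintro ⟨h1, h2⟩
    obtain ⟨a, h3, h4⟩ := Pool.Agent.Q240.Brujn.exists_all hA hl hk h1 h2
    refine ⟨a, fun w => ?_, fun x => ?_⟩
    · refine le_trans (le_of_eq ?_) (h3 w)
      unfold Pool.Agent.Q240.Brujn.occ
      congr!
    · refine Eq.trans ?_ (h4 x)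
      congr!

end Pool.Agent.Results.MP_a9eae2_co.BalancedDeBruijn
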